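import Pool.Agent.L0h86.GQ.Stm

/-!
# The cyclotomic character of `ℚ(i)`
-/

set_option autoImplicit false
set_option linter.unusedVariables false

namespace Pool.Agent.L0h26.GQ

open Pool.Agent.L0h86.GQ
open Pool.Agent.Y715.Nr (Au Inert)
open Pool.Agent.Y715.Gi (QB KK GK ev lam gk_fix)
open Pool.Agent.Y715.Df (Cmp exists_cmp)
open Pool.Agent.R384 (cyc cyc_four cyc_spec II DD)

lemma two_lt : ‖(2 : ℤ_[2])‖ = 1 / 2 := by
  have := PadicInt.norm_p (p := 2)
  simpa using this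

lemma not_unit {t : ℤ_[2]} (h : 2 * t = 1 ∨ 2 * t = -1) : False := by
  have h8 : ‖(2 * t : ℤ_[2])‖ < 1 := by
    rw [norm_mul, two_lt]
    have := PadicInt.norm_le_one t
    linarith
  rcases h with h | h
  · rw [h, norm_one] at h8
    exact lt_irrefl _ h8
  · rw [h, norm_neg, norm_one] at h8
    exact lt_irrefl _ h8

/-- an element which is `1` modulo four and a root of unity is equal to `1` -/
lemma root_one (n : ℕ) : ∀ v : ℤ_[2], (4 : ℤ_[2]) ∣ v - 1 → 0 < n → v ^ n = 1 → v = 1 := by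
  induction n using Nat.strong_induction_on with
  | _ n ih =>
  intro v hv hn hvn
  rcases Nat.even_or_odd n with ⟨l, hl⟩ | ho
  · have h3 : (v ^ l) ^ 2 = 1 := by rw [← pow_mul, mul_two, ← hl, hvn]
    have hd : (4 : ℤ_[2]) ∣ v ^ l - 1 := hv.trans (by simpa using sub_dvd_pow_sub_pow v 1 l)
    rcases sq_eq_one_iff.1 h3 with h4 | h4
    · exact ih l (by omega) v hv (by omega) h4
    · exfalso
      rw [h4] at hd
      obtain ⟨t, ht⟩ := hd
      have h6 : (2 : ℤ_[2]) * (2 * t + 1) = 0 := by linear_combination -ht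
      rcases mul_eq_zero.1 h6 with h7 | h7
      · exact two_ne_zero h7
      · exact not_unit (t := t) (Or.inr (by linear_combination h7))
  · -- odd exponent
    have h3 : (v - 1) * ∑ i ∈ Finset.range n, v ^ i = 0 := by
      rw [mul_comm, geom_sum_mul, hvn, sub_self]
    rcases mul_eq_zero.1 h3 with h4 | h4
    · exact sub_eq_zero.1 h4
    · exfalso
      have h5 : (2 : ℤ_[2]) ∣ (∑ i ∈ Finset.range n, v ^ i) - n := by
        have e : (∑ i ∈ Finset.range n, v ^ i) - (n : ℤ_[2]) =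
            ∑ i ∈ Finset.range n, (v ^ i - 1) := by
          rw [Finset.sum_sub_distrib]
          simp
        rw [e]
        apply Finset.dvd_sum
        intro i _
        have h6 : (2 : ℤ_[2]) ∣ 4 := ⟨2, by norm_num⟩
        exact (h6.trans hv).trans (by simpa using sub_dvd_pow_sub_pow v 1 i)
      rw [h4, zero_sub, dvd_neg] at h5
      obtain ⟨l, hl⟩ := ho
      have h6 : (2 : ℤ_[2]) ∣ 1 := by
        have e : (1 : ℤ_[2]) = (n : ℤ_[2]) - 2 * l := by rw [hl]; push_cast; ring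
        rw [e]
        exact dvd_sub h5 (dvd_mul_right _ _)
      obtain ⟨t, ht⟩ := h6
      exact not_unit (t := t) (Or.inl ht.symm)

lemma inf_ord {u : ℤ_[2]ˣ} (h4 : (4 : ℤ_[2]) ∣ (u : ℤ_[2]) - 1) (h1 : u ≠ 1) {k : ℤ}
    (hk : k ≠ 0) : u ^ k ≠ 1 := by
  intro h
  have h5 : u ^ k.natAbs = 1 := by
    rcases Int.natAbs_eq k with h5 | h5
    · rw [← zpow_natCast, ← h5, h]
    · rw [← zpow_natCast, show ((k.natAbs : ℕ) : ℤ) = -k by omega, zpow_neg, h, inv_one]
  apply h1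
  apply Units.ext
  rw [Units.val_one]
  apply root_one k.natAbs _ h4 (Int.natAbs_pos.2 hk)
  rw [← Units.val_pow_eq_pow_val, h5, Units.val_one]

/-- CYC: the cyclotomic character of `ℚ(i)`. -/
theorem t_CYC : S_CYC := by
  intro i₀ hi
  have hfour : ∀ σ : GK i₀, (4 : ℤ_[2]) ∣ ((cyc i₀ σ : ℤ_[2]ˣ) : ℤ_[2]) - 1 := fun σ =>
    (cyc_four hi σ).1 (gk_fix σ)
  refine ⟨hfour, ?_⟩
  intro s hs ι k hk
  obtain ⟨r, hr⟩ := IsAlgClosed.exists_pow_nat_eq i₀ (n := 2) (by norm_num)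
  have hI : (ι i₀) ^ 2 = -1 := by rw [← map_pow, hi, map_neg, map_one]
  have hζ : (ι r) ^ 2 = ι i₀ := by rw [← map_pow, hr]
  obtain ⟨τ, -, hτI, hτr⟩ := Pool.Agent.Y715.Two2.exists_inert hI (Or.inl rfl) hζ
  obtain ⟨σ, hc⟩ := exists_cmp ι τ hτI
  have hσr : σ r ≠ r := fun h => hτr (by rw [hc, h])
  have hr8 : r ^ 2 ^ 3 = 1 := by
    have e : r ^ 2 ^ 3 = ((r ^ 2) ^ 2) ^ 2 := by ring
    rw [e, hr, hi]
    norm_num
  have hne : cyc i₀ σ ≠ 1 := by
    intro h
    have h1 := cyc_spec σ hr8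
    rw [h, Units.val_one, map_one] at h1
    have h2 : ((1 : ZMod (2 ^ 3))).val = 1 := by decide
    rw [h2, pow_one] at h1
    exact hσr h1
  refine ⟨σ * σ, ⟨τ * τ, hc.mul hc⟩, ?_, ?_⟩
  · rw [AlgEquiv.mul_apply]
    rcases hs σ with h | h
    · rw [h, h]
    · rw [h, map_neg, h, neg_neg]
  · have e : (cyc i₀ (σ * σ)) ^ k = (cyc i₀ σ) ^ (2 * k) := by
      rw [map_mul, zpow_mul, zpow_ofNat, pow_two]
    rw [e]
    exact inf_ord (hfour σ) hne (by omega)

end Pool.Agent.L0h26.GQ
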